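import Pool.Agent.X225.Tj.Main

/-!
MP_1d3aa8_lc: the totalizing jump does not distribute over the meet of incomparable problems.
-/

namespace Pool.Agent.Results.MP_1d3aa8_lc.MeetStrict

open Pool.Agent.H190R3.Wei Pool.Agent.X225.Tj

/-- Every problem has a totalizing jump; and if `f`, `g` are Weihrauch incomparable, then the
totalizing jump of the meet of `f` and `g` is strictly below the meet of the totalizing jumps. -/
theorem result :
    (∀ f : Problem, ∃ h : Problem, IsTJ f h) ∧
      ∀ f g hf hg hm : Problem, IsTJ f hf → IsTJ g hg → IsTJ (meet f g) hm →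
        ¬ WLe f g → ¬ WLe g f → WLe hm (meet hf hg) ∧ ¬ WLe (meet hf hg) hm := by
  refine ⟨fun f => ⟨_, isTJ_jump f⟩, fun f g hf hg hm h1 h2 h3 h4 h5 => ⟨?_, fun h => ?_⟩⟩
  · exact le_meet (tj_mono h3 h1 (meet_le_left f g)) (tj_mono h3 h2 (meet_le_right f g))
  · rcases comparable_of_le h1 h2 h3 h with h | h
    · exact h4 h
    · exact h5 h

end Pool.Agent.Results.MP_1d3aa8_lc.MeetStrict
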